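import Pool.Agent.H24.LV.TargetsM

/-!
# Row AP of the board lvp_modules: the approximation on the major arcs
-/

set_option autoImplicit false

open Finset MeasureTheory

namespace Pool.Agent.H51.LV.AP

open Pool.Agent.H24.CL Pool.Agent.H24.LV

/-- `E x = exp (2 π i x)` -/
noncomputable def E (x : ℝ) : ℂ := e ((x : ℝ) : UnitAddCircle)

theorem E_eq (x : ℝ) : E x = Complex.exp ((2 * Real.pi * x : ℝ) * Complex.I) := by
  rw [E, e, AddCircle.toCircle_apply_mk, Circle.coe_exp]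
  congr 2
  rw [div_one]

theorem E_add (x y : ℝ) : E (x + y) = E x * E y := by
  rw [E_eq, E_eq, E_eq, ← Complex.exp_add]
  congr 1
  push_cast
  ring

theorem norm_E (x : ℝ) : ‖E x‖ = 1 := by
  rw [E_eq, Complex.norm_exp_ofReal_mul_I]

theorem E_int (n : ℤ) (x : ℝ) : E (x + n) = E x := by
  rw [E, E, QuotientAddGroup.mk_add]
  congr 1
  have : ((n : ℝ) : UnitAddCircle) = 0 := by
    rw [AddCircle.coe_eq_zero_iff]
    exact ⟨n, by simp⟩
  rw [this, add_zero]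

theorem E_sub_le (x y : ℝ) : ‖E x - E y‖ ≤ 2 * Real.pi * |x - y| := by
  have h1 : E x = E y * E (x - y) := by rw [← E_add]; congr 1; ring
  have h2 : E x - E y = E y * (E (x - y) - 1) := by rw [h1]; ring
  rw [h2, norm_mul, norm_E, one_mul, E_eq]
  have h3 := Real.norm_exp_I_mul_ofReal_sub_one_le (x := 2 * Real.pi * (x - y))
  rw [mul_comm] at h3
  refine h3.trans (le_of_eq ?_)
  rw [Real.norm_eq_abs, abs_mul, abs_of_pos (by positivity : (0 : ℝ) < 2 * Real.pi)]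

theorem continuous_E : Continuous E := by
  have : E = fun x : ℝ => Complex.exp ((2 * Real.pi * x : ℝ) * Complex.I) := funext E_eq
  rw [this]
  fun_prop

/-- the real phase -/
noncomputable def Psi {k : ℕ} (θ : Fin k → ℝ) (x : ℝ) : ℝ := ∑ i : Fin k, θ i * x ^ (i.val + 1)

theorem continuous_Psi {k : ℕ} (θ : Fin k → ℝ) : Continuous (Psi θ) := by
  unfold Psi
  fun_prop

theorem coe_sum' {k : ℕ} (r : Fin k → ℝ) :
    ((∑ i, r i : ℝ) : UnitAddCircle) = ∑ i, ((r i : ℝ) : UnitAddCircle) :=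
  map_sum (QuotientAddGroup.mk' (AddSubgroup.zmultiples (1 : ℝ))) r univ

theorem e_P {k : ℕ} (q : ℕ) (a : Fin k → ℤ) (θ : Fin k → ℝ) (w : X k)
    (hw : ∀ i, w i = (((a i : ℝ) / q + θ i : ℝ) : UnitAddCircle)) (n : ℕ) :
    e (P w n) = E ((∑ i : Fin k, (a i : ℝ) * (n : ℝ) ^ (i.val + 1)) / q) * E (Psi θ n) := by
  rw [← E_add, E]
  congr 1
  rw [P, Psi, Finset.sum_div, ← Finset.sum_add_distrib, coe_sum']
  refine Finset.sum_congr rfl fun i _ => ?_
  rw [hw i, ← AddCircle.coe_nsmul, nsmul_eq_mul]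
  congr 1
  push_cast
  ring

theorem E_period {k : ℕ} (q : ℕ) (hq : 1 ≤ q) (a : Fin k → ℤ) (j z : ℕ) :
    E ((∑ i : Fin k, (a i : ℝ) * ((q * j + z : ℕ) : ℝ) ^ (i.val + 1)) / q) =
      E ((∑ i : Fin k, (a i : ℝ) * (z : ℝ) ^ (i.val + 1)) / q) := by
  have h1 : (q : ℤ) ∣ (∑ i : Fin k, a i * ((q * j + z : ℕ) : ℤ) ^ (i.val + 1)) -
      ∑ i : Fin k, a i * (z : ℤ) ^ (i.val + 1) := by
    rw [← Finset.sum_sub_distrib]
    refine Finset.dvd_sum fun i _ => ?_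
    rw [← mul_sub]
    refine Dvd.dvd.mul_left ?_ _
    have h2 : ((q * j + z : ℕ) : ℤ) - (z : ℤ) ∣ ((q * j + z : ℕ) : ℤ) ^ (i.val + 1) - (z : ℤ) ^ (i.val + 1) :=
      sub_dvd_pow_sub_pow _ _ _
    refine dvd_trans ?_ h2
    push_cast
    exact ⟨j, by ring⟩
  obtain ⟨t, ht⟩ := h1
  have hq0 : (q : ℝ) ≠ 0 := by exact_mod_cast (by omega : q ≠ 0)
  have h3 : (∑ i : Fin k, (a i : ℝ) * ((q * j + z : ℕ) : ℝ) ^ (i.val + 1)) =
      (∑ i : Fin k, (a i : ℝ) * (z : ℝ) ^ (i.val + 1)) + q * t := by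
    have h4 := congrArg (fun x : ℤ => (x : ℝ)) ht
    push_cast at h4 ⊢
    linarith
  rw [h3, add_div, mul_div_cancel_left₀ _ hq0, E_int]

theorem sum_blocks (F : ℕ → ℂ) (q m : ℕ) :
    ∑ n ∈ range (q * m), F n = ∑ j ∈ range m, ∑ z ∈ range q, F (q * j + z) := by
  induction m with
  | zero => simp
  | succ m ih => rw [Nat.mul_succ, Finset.sum_range_add, ih, Finset.sum_range_succ]

theorem Psi_diff {k : ℕ} (θ : Fin k → ℝ) (a b x y : ℝ) (ha : 0 ≤ a) (hx : x ∈ Set.Icc a b)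
    (hy : y ∈ Set.Icc a b) :
    |Psi θ x - Psi θ y| ≤ ∑ i : Fin k, |θ i| * (b ^ (i.val + 1) - a ^ (i.val + 1)) := by
  rw [Psi, Psi, ← Finset.sum_sub_distrib]
  refine (Finset.abs_sum_le_sum_abs _ _).trans (Finset.sum_le_sum fun i _ => ?_)
  rw [← mul_sub, abs_mul]
  apply mul_le_mul_of_nonneg_left _ (abs_nonneg _)
  have h1 : a ^ (i.val + 1) ≤ x ^ (i.val + 1) := pow_le_pow_left₀ ha hx.1 _
  have h2 : x ^ (i.val + 1) ≤ b ^ (i.val + 1) := pow_le_pow_left₀ (ha.trans hx.1) hx.2 _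
  have h3 : a ^ (i.val + 1) ≤ y ^ (i.val + 1) := pow_le_pow_left₀ ha hy.1 _
  have h4 : y ^ (i.val + 1) ≤ b ^ (i.val + 1) := pow_le_pow_left₀ (ha.trans hy.1) hy.2 _
  rw [abs_le]
  constructor <;> linarith

/-- one block -/
theorem block {k : ℕ} (θ : Fin k → ℝ) (q : ℕ) (hq : 1 ≤ q) (j z : ℕ) (hz : z < q) :
    ‖E (Psi θ ((q * j + z : ℕ) : ℝ)) - (1 / (q : ℂ)) * ∫ x in ((q * j : ℕ) : ℝ)..((q * (j + 1) : ℕ) : ℝ), E (Psi θ x)‖ ≤
      2 * Real.pi * ∑ i : Fin k, |θ i| * (((q * (j + 1) : ℕ) : ℝ) ^ (i.val + 1) - ((q * j : ℕ) : ℝ) ^ (i.val + 1)) := by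
  set D := 2 * Real.pi * ∑ i : Fin k, |θ i| * (((q * (j + 1) : ℕ) : ℝ) ^ (i.val + 1) - ((q * j : ℕ) : ℝ) ^ (i.val + 1)) with hD
  have hq0 : (0 : ℝ) < q := by exact_mod_cast hq
  have hqC : (q : ℂ) ≠ 0 := by exact_mod_cast (by omega : q ≠ 0)
  have hlen : ((q * (j + 1) : ℕ) : ℝ) - ((q * j : ℕ) : ℝ) = q := by push_cast; ring
  have hle : ((q * j : ℕ) : ℝ) ≤ ((q * (j + 1) : ℕ) : ℝ) := by linarith
  have hint : IntervalIntegrable (fun x => E (Psi θ x)) volume ((q * j : ℕ) : ℝ) ((q * (j + 1) : ℕ) : ℝ) :=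
    (continuous_E.comp (continuous_Psi θ)).intervalIntegrable _ _
  have h1 : E (Psi θ ((q * j + z : ℕ) : ℝ)) - (1 / (q : ℂ)) * ∫ x in ((q * j : ℕ) : ℝ)..((q * (j + 1) : ℕ) : ℝ), E (Psi θ x) =
      (1 / (q : ℂ)) * ∫ x in ((q * j : ℕ) : ℝ)..((q * (j + 1) : ℕ) : ℝ), (E (Psi θ ((q * j + z : ℕ) : ℝ)) - E (Psi θ x)) := by
    rw [intervalIntegral.integral_sub (intervalIntegrable_const) hint, intervalIntegral.integral_const, hlen,
      mul_sub]
    congr 1
    rw [Complex.real_smul]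
    push_cast
    field_simp
  rw [h1, norm_mul]
  have h2 : ‖∫ x in ((q * j : ℕ) : ℝ)..((q * (j + 1) : ℕ) : ℝ), (E (Psi θ ((q * j + z : ℕ) : ℝ)) - E (Psi θ x))‖ ≤
      D * |((q * (j + 1) : ℕ) : ℝ) - ((q * j : ℕ) : ℝ)| := by
    apply intervalIntegral.norm_integral_le_of_norm_le_const
    intro x hx
    rw [Set.uIoc_of_le hle] at hx
    refine (E_sub_le _ _).trans ?_
    rw [hD]
    apply mul_le_mul_of_nonneg_left _ (by positivity)
    apply Psi_diff θ _ _ _ _ (Nat.cast_nonneg _) _ ⟨hx.1.le, hx.2⟩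
    constructor
    · exact_mod_cast Nat.le_add_right _ _
    · have : q * j + z ≤ q * (j + 1) := by rw [Nat.mul_succ]; omega
      exact_mod_cast this
  rw [hlen, abs_of_pos hq0] at h2
  have h3 : ‖(1 / (q : ℂ))‖ = 1 / q := by
    rw [norm_div, norm_one, Complex.norm_natCast]
  rw [h3]
  calc 1 / (q : ℝ) * _ ≤ 1 / (q : ℝ) * (D * q) := mul_le_mul_of_nonneg_left h2 (by positivity)
    _ = D := by field_simp

theorem vI_eq {k : ℕ} (θ : Fin k → ℝ) (N : ℕ) (hN : 1 ≤ N) :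
    (N : ℂ) * vI (fun i => θ i * (N : ℝ) ^ (i.val + 1)) = ∫ x in (0 : ℝ)..(N : ℝ), E (Psi θ x) := by
  have hN0 : (N : ℝ) ≠ 0 := by exact_mod_cast (by omega : N ≠ 0)
  have h1 : vI (fun i => θ i * (N : ℝ) ^ (i.val + 1)) = ∫ x in (0 : ℝ)..1, E (Psi θ ((N : ℝ) * x)) := by
    rw [vI]
    refine intervalIntegral.integral_congr fun x _ => ?_
    simp only [E, Psi]
    congr 2
    refine Finset.sum_congr rfl fun i _ => ?_
    rw [mul_pow]
    ring
  rw [h1, intervalIntegral.integral_comp_mul_left (fun x => E (Psi θ x)) hN0, mul_zero, mul_one,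
    Complex.real_smul]
  have hNC : (N : ℂ) ≠ 0 := by exact_mod_cast hN0
  push_cast
  field_simp

theorem tele {k : ℕ} (θ : Fin k → ℝ) (q m : ℕ) :
    ∑ j ∈ range m, (∑ i : Fin k, |θ i| * (((q * (j + 1) : ℕ) : ℝ) ^ (i.val + 1) - ((q * j : ℕ) : ℝ) ^ (i.val + 1))) =
      ∑ i : Fin k, |θ i| * ((q * m : ℕ) : ℝ) ^ (i.val + 1) := by
  rw [Finset.sum_comm]
  refine Finset.sum_congr rfl fun i _ => ?_
  rw [← Finset.mul_sum, Finset.sum_range_sub (fun j => ((q * j : ℕ) : ℝ) ^ (i.val + 1))]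
  congr 1
  simp

theorem pf_AP : M_AP := by
  intro k
  refine ⟨2 + 2 * Real.pi * k, ?_, ?_⟩
  · have := Real.pi_pos
    have h : 0 ≤ 2 * Real.pi * k := by positivity
    linarith
  intro N q a θ w G hN hq hG hw hθ
  set m := N / q with hm
  set r := N % q with hr
  have hNqr : N = q * m + r := (Nat.div_add_mod N q).symm
  have hrq : r < q := Nat.mod_lt _ (by omega)
  have hq0 : (0 : ℝ) < q := by exact_mod_cast hq
  set c : ℕ → ℂ := fun z => E ((∑ i : Fin k, (a i : ℝ) * (z : ℝ) ^ (i.val + 1)) / q) with hc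
  set g : ℝ → ℂ := fun x => E (Psi θ x) with hg
  have hgc : Continuous g := continuous_E.comp (continuous_Psi θ)
  set I : ℕ → ℂ := fun j => ∫ x in ((q * j : ℕ) : ℝ)..((q * (j + 1) : ℕ) : ℝ), g x with hI
  set R : ℂ := ∫ x in ((q * m : ℕ) : ℝ)..(N : ℝ), g x with hR
  have hterm : ∀ j z : ℕ, e (P w (q * j + z)) = c z * g ((q * j + z : ℕ) : ℝ) := by
    intro j z
    rw [e_P q a θ w hw, E_period q hq a j z]
  have hf : f N w = ∑ j ∈ range m, ∑ z ∈ range q, c z * g ((q * j + z : ℕ) : ℝ) +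
      ∑ z ∈ range r, c z * g ((q * m + z : ℕ) : ℝ) := by
    rw [f]
    conv_lhs => rw [hNqr]
    rw [Finset.sum_range_add, sum_blocks]
    congr 1
    · exact Finset.sum_congr rfl fun j _ => Finset.sum_congr rfl fun z _ => hterm j z
    · exact Finset.sum_congr rfl fun z _ => hterm m z
  have hint : ∫ x in (0 : ℝ)..(N : ℝ), g x = ∑ j ∈ range m, I j + R := by
    have h1 : ∑ j ∈ range m, I j = ∫ x in ((q * 0 : ℕ) : ℝ)..((q * m : ℕ) : ℝ), g x := by
      simp only [hI]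
      exact intervalIntegral.sum_integral_adjacent_intervals (a := fun j => ((q * j : ℕ) : ℝ))
        fun j _ => hgc.intervalIntegrable _ _
    rw [h1, hR, intervalIntegral.integral_add_adjacent_intervals (hgc.intervalIntegrable _ _)
      (hgc.intervalIntegrable _ _)]
    simp
  have hSq : Sq q a = (1 / (q : ℂ)) * ∑ z ∈ range q, c z := by
    rfl
  have hSqn : ‖Sq q a‖ ≤ 1 := by
    rw [hSq, norm_mul, norm_div, norm_one, Complex.norm_natCast]
    have h1 : ‖∑ z ∈ range q, c z‖ ≤ q := by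
      refine (norm_sum_le _ _).trans ?_
      simp only [hc, norm_E, Finset.sum_const, card_range, nsmul_eq_mul, mul_one, le_refl]
    calc 1 / (q : ℝ) * _ ≤ 1 / (q : ℝ) * q := mul_le_mul_of_nonneg_left h1 (by positivity)
      _ = 1 := by field_simp
  have hRn : ‖R‖ ≤ q := by
    have h1 : ‖R‖ ≤ 1 * |(N : ℝ) - ((q * m : ℕ) : ℝ)| := by
      apply intervalIntegral.norm_integral_le_of_norm_le_const
      intro x _
      exact (norm_E _).le
    have h2 : (N : ℝ) - ((q * m : ℕ) : ℝ) = r := by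
      conv_lhs => rw [hNqr]
      push_cast
      ring
    rw [h2, one_mul, abs_of_nonneg (Nat.cast_nonneg _)] at h1
    refine h1.trans ?_
    exact_mod_cast hrq.le
  have hmain : f N w - (N : ℂ) * Sq q a * vI (fun i => θ i * (N : ℝ) ^ (i.val + 1)) =
      ∑ j ∈ range m, ∑ z ∈ range q, c z * (g ((q * j + z : ℕ) : ℝ) - (1 / (q : ℂ)) * I j) +
        ∑ z ∈ range r, c z * g ((q * m + z : ℕ) : ℝ) - Sq q a * R := by
    have h1 : (N : ℂ) * Sq q a * vI (fun i => θ i * (N : ℝ) ^ (i.val + 1)) =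
        Sq q a * (∑ j ∈ range m, I j + R) := by
      rw [← hint, ← vI_eq θ N hN]
      ring
    have h2 : ∑ j ∈ range m, ∑ z ∈ range q, c z * (g ((q * j + z : ℕ) : ℝ) - (1 / (q : ℂ)) * I j) =
        ∑ j ∈ range m, ∑ z ∈ range q, c z * g ((q * j + z : ℕ) : ℝ) - Sq q a * ∑ j ∈ range m, I j := by
      rw [Finset.mul_sum, ← Finset.sum_sub_distrib]
      refine Finset.sum_congr rfl fun j _ => ?_
      rw [hSq, mul_assoc, Finset.sum_mul, Finset.mul_sum, ← Finset.sum_sub_distrib]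
      refine Finset.sum_congr rfl fun z _ => ?_
      ring
    rw [h1, h2, hf]
    ring
  rw [hmain]
  have hb1 : ‖∑ j ∈ range m, ∑ z ∈ range q, c z * (g ((q * j + z : ℕ) : ℝ) - (1 / (q : ℂ)) * I j)‖ ≤
      q * (2 * Real.pi * (k * G)) := by
    refine (norm_sum_le _ _).trans ?_
    have h1 : ∀ j ∈ range m, ‖∑ z ∈ range q, c z * (g ((q * j + z : ℕ) : ℝ) - (1 / (q : ℂ)) * I j)‖ ≤
        q * (2 * Real.pi * ∑ i : Fin k, |θ i| * (((q * (j + 1) : ℕ) : ℝ) ^ (i.val + 1) - ((q * j : ℕ) : ℝ) ^ (i.val + 1))) := by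
      intro j _
      refine (norm_sum_le _ _).trans ?_
      have h0 : ∀ z ∈ range q, ‖c z * (g ((q * j + z : ℕ) : ℝ) - (1 / (q : ℂ)) * I j)‖ ≤
          2 * Real.pi * ∑ i : Fin k, |θ i| * (((q * (j + 1) : ℕ) : ℝ) ^ (i.val + 1) - ((q * j : ℕ) : ℝ) ^ (i.val + 1)) := by
        intro z hz
        rw [norm_mul]
        simp only [hc]
        rw [norm_E, one_mul]
        exact block θ q hq j z (mem_range.1 hz)
      refine (Finset.sum_le_sum h0).trans (le_of_eq ?_)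
      rw [Finset.sum_const, card_range, nsmul_eq_mul]
    refine (Finset.sum_le_sum h1).trans ?_
    rw [← Finset.mul_sum, ← Finset.mul_sum, tele]
    apply mul_le_mul_of_nonneg_left _ hq0.le
    apply mul_le_mul_of_nonneg_left _ (by positivity)
    have h2 : ∀ i ∈ (univ : Finset (Fin k)), |θ i| * ((q * m : ℕ) : ℝ) ^ (i.val + 1) ≤ G := by
      intro i _
      refine le_trans ?_ (hθ i)
      apply mul_le_mul_of_nonneg_left _ (abs_nonneg _)
      apply pow_le_pow_left₀ (Nat.cast_nonneg _)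
      have : q * m ≤ N := by omega
      exact_mod_cast this
    refine (Finset.sum_le_sum h2).trans (le_of_eq ?_)
    rw [Finset.sum_const, card_univ, Fintype.card_fin, nsmul_eq_mul]
  have hb2 : ‖∑ z ∈ range r, c z * g ((q * m + z : ℕ) : ℝ)‖ ≤ q := by
    refine (norm_sum_le _ _).trans ?_
    have h1 : ∀ z ∈ range r, ‖c z * g ((q * m + z : ℕ) : ℝ)‖ ≤ 1 := by
      intro z _
      rw [norm_mul]
      simp only [hc, hg, norm_E, mul_one, le_refl]
    refine (Finset.sum_le_sum h1).trans ?_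
    rw [Finset.sum_const, card_range, nsmul_eq_mul, mul_one]
    exact_mod_cast hrq.le
  have hb3 : ‖Sq q a * R‖ ≤ q := by
    rw [norm_mul]
    calc ‖Sq q a‖ * ‖R‖ ≤ 1 * q := mul_le_mul hSqn hRn (norm_nonneg _) zero_le_one
      _ = q := one_mul _
  refine (norm_sub_le _ _).trans ?_
  have h4 := norm_add_le (∑ j ∈ range m, ∑ z ∈ range q, c z * (g ((q * j + z : ℕ) : ℝ) - (1 / (q : ℂ)) * I j))
    (∑ z ∈ range r, c z * g ((q * m + z : ℕ) : ℝ))
  have h5 : (2 : ℝ) * q ≤ 2 * q * G := by nlinarith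
  have h6 : (2 + 2 * Real.pi * (k : ℝ)) * q * G = 2 * q * G + q * (2 * Real.pi * (k * G)) := by ring
  rw [h6]
  linarith

end Pool.Agent.H51.LV.AP
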