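import Pool.Agent.H24.LV.TargetsM
import Pool.Agent.H31.LV.Basic
import Pool.Agent.H31.LV.Targets

/-!
# Row MWI of the board lvp_modules: large values lie on the major arcs
-/

set_option autoImplicit false

open Finset MeasureTheory

namespace Pool.Agent.H51.LV.MWI

open Pool.Agent.H24.CL Pool.Agent.H24.LV Pool.Agent.H31.LV

/-- reduction of a fraction with several numerators -/
theorem reduce {k : ℕ} (q : ℕ) (hq : 1 ≤ q) (a : Fin k → ℤ) :
    ∃ (q₁ : ℕ) (b : Fin k → ℤ), 1 ≤ q₁ ∧ q₁ ≤ q ∧ (∀ d : ℕ, d ∣ q₁ → (∀ i, (d : ℤ) ∣ b i) → d = 1) ∧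
      ∀ i, (a i : ℝ) / q = (b i : ℝ) / q₁ := by
  set g : ℕ := Nat.gcd q (Finset.univ.gcd fun i : Fin k => (a i).natAbs) with hg
  have hgq : g ∣ q := Nat.gcd_dvd_left _ _
  have hga : ∀ i, (g : ℤ) ∣ a i := by
    intro i
    rw [Int.natCast_dvd]
    exact (Nat.gcd_dvd_right _ _).trans (Finset.gcd_dvd (mem_univ i))
  have hg0 : 0 < g := Nat.pos_of_dvd_of_pos hgq hq
  obtain ⟨q₁, hq₁⟩ := hgq
  choose b hb using hga
  refine ⟨q₁, b, ?_, ?_, ?_, ?_⟩
  · rcases Nat.eq_zero_or_pos q₁ with h | h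
    · rw [h] at hq₁
      omega
    · exact h
  · rw [hq₁]
    exact Nat.le_mul_of_pos_left _ hg0
  · intro d hd hdb
    have h1 : g * d ∣ g := by
      conv_rhs => rw [hg]
      apply Nat.dvd_gcd
      · rw [hq₁]
        exact Nat.mul_dvd_mul_left g hd
      · apply Finset.dvd_gcd
        intro i _
        rw [← Int.natCast_dvd, hb i]
        push_cast
        exact mul_dvd_mul_left _ (hdb i)
    have h2 : g * d ≤ g * 1 := by
      rw [mul_one]
      exact Nat.le_of_dvd hg0 h1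
    have h3 : d ≤ 1 := Nat.le_of_mul_le_mul_left h2 hg0
    have h4 : 0 < d := Nat.pos_of_dvd_of_pos (dvd_trans (Dvd.intro_left g rfl) h1) hg0
    omega
  · intro i
    have hgR : (g : ℝ) ≠ 0 := by exact_mod_cast hg0.ne'
    rw [hb i]
    conv_lhs => rw [hq₁]
    push_cast
    rw [mul_div_mul_left _ _ hgR]

theorem pf_MWI (hWI : Pool.Agent.H31.LV.W_WI) : M_WI := by
  intro k hk
  obtain ⟨C, hC, h⟩ := hWI k
  refine ⟨C, hC, ?_⟩
  intro N Q M w hM hQ hN hu
  have hM0 : 0 < M := by linarith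
  have hMC : 1 ≤ M ^ C := Real.one_le_rpow hM (by linarith)
  have hN1 : 1 ≤ N := by
    have h1 : (1 : ℝ) ≤ N := by nlinarith
    exact_mod_cast h1
  have hN0 : (0 : ℝ) < N := by exact_mod_cast hN1
  obtain ⟨c, hc⟩ := ex_Lft w
  set δ : ℝ := M ^ (-(1 / 2 : ℝ)) with hδ
  have hδ0 : 0 < δ := Real.rpow_pos_of_pos hM0 _
  have hδ1 : δ ≤ 1 := Real.rpow_le_one_of_one_le_of_nonpos hM (by norm_num)
  have hsum : δ * N ≤ ‖∑ n ∈ Ico 0 N, ee (pl k c n)‖ := by
    rw [u_eq hc, norm_mul, norm_div, norm_one, Complex.norm_natCast] at hu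
    rw [← Finset.range_eq_Ico]
    calc δ * N ≤ (1 / N * ‖∑ n ∈ range N, ee (pl k c n)‖) * N :=
          mul_le_mul_of_nonneg_right hu hN0.le
      _ = ‖∑ n ∈ range N, ee (pl k c n)‖ := by field_simp
  obtain ⟨q, hq, hqC, hqa⟩ := h N 0 N c δ hN1 (Nat.zero_le _) le_rfl hδ0 hδ1 hsum
  have hL : C * δ ^ (-C) ≤ Q := by
    refine le_trans ?_ hQ
    apply mul_le_mul_of_nonneg_left _ (by linarith)
    rw [hδ, ← Real.rpow_mul hM0.le]
    apply Real.rpow_le_rpow_of_exponent_le hM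
    linarith
  have h1 : ∀ i : Fin k, ∃ a : ℤ, |q * c i.val - a| ≤ C * δ ^ (-C) / (N : ℝ) ^ (i.val + 1) :=
    fun i => hqa i.val i.isLt
  choose a ha using h1
  obtain ⟨q₁, b, hq₁, hq₁q, hcop, hab⟩ := reduce q hq a
  have hq0 : (0 : ℝ) < q := by exact_mod_cast hq
  refine ⟨q₁, b, fun i => c i.val - (a i : ℝ) / q, hq₁, ?_, hcop, ?_, ?_⟩
  · have h2 : (q : ℝ) ≤ Q := hqC.trans hL
    have h3 : q ≤ Q := by exact_mod_cast h2
    omega
  · intro i
    rw [hc i]
    congr 1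
    rw [← hab i]
    ring
  · intro i
    have h2 : |c i.val - (a i : ℝ) / q| = |q * c i.val - a i| / q := by
      rw [← abs_of_pos hq0, ← abs_div, abs_of_pos hq0]
      congr 1
      field_simp
    have hNp : (0 : ℝ) < (N : ℝ) ^ (i.val + 1) := by positivity
    have h3 : |q * c i.val - a i| * (N : ℝ) ^ (i.val + 1) ≤ C * δ ^ (-C) := by
      have := ha i
      rwa [le_div_iff₀ hNp] at this
    have hq1R : (1 : ℝ) ≤ q := by exact_mod_cast hq
    rw [h2, div_mul_eq_mul_div]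
    refine (div_le_self (by positivity) hq1R).trans (h3.trans hL)

end Pool.Agent.H51.LV.MWI
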